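import Mathlib
import Pool.Agent.H26.Hom.Defs
import Pool.Agent.H26.Hom.Graph
import Pool.Agent.H26.Hom.Stmts
import Pool.Agent.H26.Hom.GAPU
import Pool.Agent.H26.Hom.GAPL
import Pool.Agent.H26.Hom.FIN
import Pool.Agent.H26.Hom.TIGHT
import Pool.Agent.H26.Hom.CLST
import Pool.Agent.H26.Hom.CLSB
import Pool.Agent.H26.Hom.CLSM
import Pool.Agent.H46.Hom.CONF
import Pool.Agent.H26.Hom.KILL
import Pool.Agent.H26.Hom.ASML
import Pool.Agent.H26.Hom.WORD
import Pool.Agent.H46.Hom.SEL
import Pool.Agent.H26.Hom.NORM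
import Pool.Agent.H26.Hom.LAB
import Pool.Agent.H26.Hom.LABEL
import Pool.Agent.H26.Hom.ASMU
import Pool.Agent.H26.Hom.CONN

/-!
# MP_0e1964_an, Q1: a negative answer

There is a finite connected graph (with 732 vertices) whose two-dimensional Hom shift has a gap
function of order `log log n`.
-/

namespace Pool.Agent.Results.MP_0e1964_an.DoublyLogGap

open Pool.Agent.H26.Hom

/-- A finite connected graph whose gap function is `Θ(log log n)`; the trichotomy `Θ(1)`,
`Θ(log n)`, `Θ(n)` of the gap functions fails. -/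
theorem result :
    (∃ (V : Type) (_ : Finite V) (G : SimpleGraph V), G.Connected ∧ (∃ a b, G.Adj a b) ∧
      IsTheta (fun n => (gap G n : ℝ)) (fun n => Real.log (Real.log n))) ∧
    ¬ Trichotomy :=
  main_of GAPU GAPL (ASML TIGHT CLST CLSB CLSM CONFU CONFD KILL)
    (ASMU (SEL WORD) NORM LAB LABEL) CONN FIN

end Pool.Agent.Results.MP_0e1964_an.DoublyLogGap
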